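import Pool.Agent.H8.DE.Targets

/-!
# The control of a program is correct (board det_modules, row CM)
-/

set_option autoImplicit false

namespace Pool.Agent.H9.DE

open Pool.Agent.H69.Sp Pool.Agent.H69.VR Pool.Agent.H8.VR Pool.Agent.H8.JS Pool.Agent.H8.MC
  Pool.Agent.H8.DE

theorem fin_Qs : ∀ p, Finite (Qs p)
  | .nop => inferInstanceAs (Finite Unit)
  | .inc _ => inferInstanceAs (Finite Unit)
  | .dec _ => inferInstanceAs (Finite Unit)
  | .rt => inferInstanceAs (Finite Unit)
  | .lf => inferInstanceAs (Finite Unit)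
  | .wr _ => inferInstanceAs (Finite Unit)
  | .seq p q => by
    have := fin_Qs p
    have := fin_Qs q
    exact inferInstanceAs (Finite (Qs p ⊕ Qs q))
  | .ifz _ p q => by
    have := fin_Qs p
    have := fin_Qs q
    exact inferInstanceAs (Finite (Option (Qs p ⊕ Qs q)))
  | .ifw p q => by
    have := fin_Qs p
    have := fin_Qs q
    exact inferInstanceAs (Finite (Option (Qs p ⊕ Qs q)))
  | .whn _ p => by
    have := fin_Qs p
    exact inferInstanceAs (Finite (Option (Qs p)))

theorem upd_self (w : ℕ → Bool) (h : ℕ) : Function.update w h (w h) = w :=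
  Function.update_eq_self h w

theorem stay (σ : Z0) : (⟨fun j => Mv.S.go (σ.n j), Mv.S.go σ.h,
    Function.update σ.w σ.h (σ.w σ.h)⟩ : Z0) = σ := by
  ext1
  · rfl
  · rfl
  · exact upd_self _ _

theorem lift_seqr (p q : P0) {s : Qs q} {x y : Z0} {t : ℕ} (h : Rch q s x t y) :
    Rch (.seq p q) (Sum.inr s) x t y := by
  induction h with
  | fin s x y h =>
    refine Rch.fin (p := .seq p q) _ _ _ ?_
    change ((nx q s x).1.map Sum.inr, (nx q s x).2) = _
    rw [h]
    rfl
  | stp s s' x y z t h _ ih =>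
    refine Rch.stp (p := .seq p q) _ (Sum.inr s') _ y _ _ ?_ ih
    change ((nx q s x).1.map Sum.inr, (nx q s x).2) = _
    rw [h]
    rfl

theorem lift_seql (p q : P0) {s : Qs p} {x y z : Z0} {t t2 : ℕ} (h : Rch p s x t y)
    (h2 : Rch q (st q) y t2 z) : Rch (.seq p q) (Sum.inl s) x (t + t2) z := by
  induction h with
  | fin s x y h =>
    rw [Nat.add_comm]
    refine Rch.stp (p := .seq p q) _ (Sum.inr (st q)) _ y _ _ ?_ (lift_seqr p q h2)
    have h3 : nx (.seq p q) (Sum.inl s) x = (some (match (nx p s x).1 with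
        | some s' => Sum.inl s'
        | none => Sum.inr (st q)), (nx p s x).2) := rfl
    rw [h3, h]
  | stp s s' x y z t h _ ih =>
    rw [Nat.add_right_comm]
    refine Rch.stp (p := .seq p q) _ (Sum.inl s') _ y _ _ ?_ (ih h2)
    have h3 : nx (.seq p q) (Sum.inl s) x = (some (match (nx p s x).1 with
        | some s' => Sum.inl s'
        | none => Sum.inr (st q)), (nx p s x).2) := rfl
    rw [h3, h]

theorem lift_ifz1 (j : ℕ) (p q : P0) {s : Qs p} {x y : Z0} {t : ℕ} (h : Rch p s x t y) :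
    Rch (.ifz j p q) (some (Sum.inl s)) x t y := by
  induction h with
  | fin s x y h =>
    refine Rch.fin (p := .ifz j p q) _ _ _ ?_
    change ((nx p s x).1.map (fun s' => some (Sum.inl s')), (nx p s x).2) = _
    rw [h]
    rfl
  | stp s s' x y z t h _ ih =>
    refine Rch.stp (p := .ifz j p q) _ (some (Sum.inl s')) _ y _ _ ?_ ih
    change ((nx p s x).1.map (fun s' => some (Sum.inl s')), (nx p s x).2) = _
    rw [h]
    rfl

theorem lift_ifz2 (j : ℕ) (p q : P0) {s : Qs q} {x y : Z0} {t : ℕ} (h : Rch q s x t y) :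
    Rch (.ifz j p q) (some (Sum.inr s)) x t y := by
  induction h with
  | fin s x y h =>
    refine Rch.fin (p := .ifz j p q) _ _ _ ?_
    change ((nx q s x).1.map (fun s' => some (Sum.inr s')), (nx q s x).2) = _
    rw [h]
    rfl
  | stp s s' x y z t h _ ih =>
    refine Rch.stp (p := .ifz j p q) _ (some (Sum.inr s')) _ y _ _ ?_ ih
    change ((nx q s x).1.map (fun s' => some (Sum.inr s')), (nx q s x).2) = _
    rw [h]
    rfl

theorem lift_ifw1 (p q : P0) {s : Qs p} {x y : Z0} {t : ℕ} (h : Rch p s x t y) :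
    Rch (.ifw p q) (some (Sum.inl s)) x t y := by
  induction h with
  | fin s x y h =>
    refine Rch.fin (p := .ifw p q) _ _ _ ?_
    change ((nx p s x).1.map (fun s' => some (Sum.inl s')), (nx p s x).2) = _
    rw [h]
    rfl
  | stp s s' x y z t h _ ih =>
    refine Rch.stp (p := .ifw p q) _ (some (Sum.inl s')) _ y _ _ ?_ ih
    change ((nx p s x).1.map (fun s' => some (Sum.inl s')), (nx p s x).2) = _
    rw [h]
    rfl

theorem lift_ifw2 (p q : P0) {s : Qs q} {x y : Z0} {t : ℕ} (h : Rch q s x t y) :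
    Rch (.ifw p q) (some (Sum.inr s)) x t y := by
  induction h with
  | fin s x y h =>
    refine Rch.fin (p := .ifw p q) _ _ _ ?_
    change ((nx q s x).1.map (fun s' => some (Sum.inr s')), (nx q s x).2) = _
    rw [h]
    rfl
  | stp s s' x y z t h _ ih =>
    refine Rch.stp (p := .ifw p q) _ (some (Sum.inr s')) _ y _ _ ?_ ih
    change ((nx q s x).1.map (fun s' => some (Sum.inr s')), (nx q s x).2) = _
    rw [h]
    rfl

theorem lift_whn (j : ℕ) (p : P0) {s : Qs p} {x y z : Z0} {t t2 : ℕ} (h : Rch p s x t y)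
    (h2 : Rch (.whn j p) (none : Option (Qs p)) y t2 z) :
    Rch (.whn j p) (some s : Option (Qs p)) x (t + t2) z := by
  induction h with
  | fin s x y h =>
    rw [Nat.add_comm]
    refine Rch.stp (p := .whn j p) _ (none : Option (Qs p)) _ y _ _ ?_ h2
    change (some (nx p s x).1, (nx p s x).2) = _
    rw [h]
    rfl
  | stp s s' x y z t h _ ih =>
    rw [Nat.add_right_comm]
    refine Rch.stp (p := .whn j p) _ (some s' : Option (Qs p)) _ y _ _ ?_ (ih h2)
    change (some (nx p s x).1, (nx p s x).2) = _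
    rw [h]
    rfl

theorem pf_CM : D_CM := by
  refine ⟨fin_Qs, fun p σ σ' t h => ?_⟩
  induction h with
  | nop σ =>
    refine Rch.fin _ _ _ ?_
    change (none, (⟨fun j => Mv.S.go (σ.n j), Mv.S.go σ.h,
      Function.update σ.w σ.h (σ.w σ.h)⟩ : Z0)) = _
    rw [stay]
  | inc j σ =>
    refine Rch.fin _ _ _ ?_
    change (none, (⟨fun i => (if i = j then Mv.R else Mv.S).go (σ.n i), Mv.S.go σ.h,
      Function.update σ.w σ.h (σ.w σ.h)⟩ : Z0)) = _
    rw [upd_self]
    congr 1
    ext1
    · funext i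
      by_cases hi : i = j
      · subst hi
        simp [Mv.go]
      · simp [Mv.go, hi]
    · rfl
    · rfl
  | dec j σ =>
    refine Rch.fin _ _ _ ?_
    change (none, (⟨fun i => (if i = j then Mv.L else Mv.S).go (σ.n i), Mv.S.go σ.h,
      Function.update σ.w σ.h (σ.w σ.h)⟩ : Z0)) = _
    rw [upd_self]
    congr 1
    ext1
    · funext i
      by_cases hi : i = j
      · subst hi
        simp [Mv.go]
      · simp [Mv.go, hi]
    · rfl
    · rfl
  | rt σ =>
    refine Rch.fin _ _ _ ?_
    change (none, (⟨fun j => Mv.S.go (σ.n j), Mv.R.go σ.h,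
      Function.update σ.w σ.h (σ.w σ.h)⟩ : Z0)) = _
    rw [upd_self]
    rfl
  | lf σ =>
    refine Rch.fin _ _ _ ?_
    change (none, (⟨fun j => Mv.S.go (σ.n j), Mv.L.go σ.h,
      Function.update σ.w σ.h (σ.w σ.h)⟩ : Z0)) = _
    rw [upd_self]
    rfl
  | wr b σ => exact Rch.fin _ _ _ rfl
  | seq p q σ σ' σ'' t t' _ _ ih ih' => exact lift_seql p q ih ih'
  | ifzt j p q σ σ' t hj _ ih =>
    refine Rch.stp (p := .ifz j p q) _ (some (Sum.inl (st p))) _ σ _ _ ?_ (lift_ifz1 j p q ih)
    change (some (some (if decide (σ.n j = 0) = true then Sum.inl (st p) else Sum.inr (st q))),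
      (⟨fun j => Mv.S.go (σ.n j), Mv.S.go σ.h, Function.update σ.w σ.h (σ.w σ.h)⟩ : Z0)) = _
    rw [stay, decide_eq_true hj]
    rfl
  | ifzf j p q σ σ' t hj _ ih =>
    refine Rch.stp (p := .ifz j p q) _ (some (Sum.inr (st q))) _ σ _ _ ?_ (lift_ifz2 j p q ih)
    change (some (some (if decide (σ.n j = 0) = true then Sum.inl (st p) else Sum.inr (st q))),
      (⟨fun j => Mv.S.go (σ.n j), Mv.S.go σ.h, Function.update σ.w σ.h (σ.w σ.h)⟩ : Z0)) = _
    rw [stay, decide_eq_false hj]
    rfl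
  | ifwt p q σ σ' t hj _ ih =>
    refine Rch.stp (p := .ifw p q) _ (some (Sum.inl (st p))) _ σ _ _ ?_ (lift_ifw1 p q ih)
    change (some (some (if σ.w σ.h = true then Sum.inl (st p) else Sum.inr (st q))),
      (⟨fun j => Mv.S.go (σ.n j), Mv.S.go σ.h, Function.update σ.w σ.h (σ.w σ.h)⟩ : Z0)) = _
    rw [stay, if_pos hj]
    rfl
  | ifwf p q σ σ' t hj _ ih =>
    refine Rch.stp (p := .ifw p q) _ (some (Sum.inr (st q))) _ σ _ _ ?_ (lift_ifw2 p q ih)
    change (some (some (if σ.w σ.h = true then Sum.inl (st p) else Sum.inr (st q))),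
      (⟨fun j => Mv.S.go (σ.n j), Mv.S.go σ.h, Function.update σ.w σ.h (σ.w σ.h)⟩ : Z0)) = _
    rw [stay, hj]
    rfl
  | whnt j p σ σ' σ'' t t' hj _ _ ih ih' =>
    refine Rch.stp (p := .whn j p) _ (some (st p) : Option (Qs p)) _ σ _ _ ?_ (lift_whn j p ih ih')
    change ((if decide (σ.n j = 0) = true then none else some (some (st p))),
      (⟨fun j => Mv.S.go (σ.n j), Mv.S.go σ.h, Function.update σ.w σ.h (σ.w σ.h)⟩ : Z0)) = _
    rw [stay, decide_eq_false hj]
    rfl
  | whnf j p σ hj =>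
    refine Rch.fin _ _ _ ?_
    change ((if decide (σ.n j = 0) = true then none else some (some (st p))),
      (⟨fun j => Mv.S.go (σ.n j), Mv.S.go σ.h, Function.update σ.w σ.h (σ.w σ.h)⟩ : Z0)) = _
    rw [stay, decide_eq_true hj]
    rfl

end Pool.Agent.H9.DE
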